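import Pool.Agent.Y530.TB.Stm

/-! Project TB (helper530), job TB-SIX: six generic lines are independent. -/

set_option autoImplicit false

namespace Pool.Agent.Y287.TB.Six

open Pool.Agent.W824.BJ Pool.Agent.Y530.BB Pool.Agent.Y530.TB
open Matrix (of mulVec)
open scoped Matrix

/-- the Pluecker coordinates of a line -/
def pl {R : Type*} [CommRing R] (X Y : Fin 4 → R) : Fin 6 → R :=
  ![X 0 * Y 1 - X 1 * Y 0, X 0 * Y 2 - X 2 * Y 0, X 0 * Y 3 - X 3 * Y 0,
    X 1 * Y 2 - X 2 * Y 1, X 1 * Y 3 - X 3 * Y 1, X 2 * Y 3 - X 3 * Y 2]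

lemma pl_pr {k : Type*} [CommRing k] (T : Fin 6 → k) (X Y : Fin 4 → k) :
    pl X Y ⬝ᵥ T = pr T X Y := by
  unfold pr pl dotProduct
  rw [Fin.sum_univ_six]
  simp only [Matrix.cons_val]
  ring

lemma pl_map {R S : Type*} [CommRing R] [CommRing S] (φ : R →+* S) (X Y : Fin 4 → R)
    (j : Fin 6) : φ (pl X Y j) = pl (fun i => φ (X i)) (fun i => φ (Y i)) j := by
  fin_cases j <;> simp [pl]

/-- the matrix of the six lines -/
def MM {R : Type*} [CommRing R] (A B C : Fin 3 → Fin 4 → R) : Matrix (Fin 6) (Fin 6) R :=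
  of ![pl (A 0) (B 0), pl (A 1) (B 1), pl (A 2) (B 2), pl (A 0 + B 0) (C 0),
    pl (A 1 + B 1) (C 1), pl (A 2 + B 2) (C 2)]

lemma MM_map {R S : Type*} [CommRing R] [CommRing S] (φ : R →+* S) (A B C : Fin 3 → Fin 4 → R) :
    (MM A B C).map φ = MM (fun k i => φ (A k i)) (fun k i => φ (B k i)) (fun k i => φ (C k i)) := by
  have h : ∀ k, (fun i => φ ((A k + B k) i)) = (fun i => φ (A k i)) + fun i => φ (B k i) := by
    intro k
    funext i
    rw [Pi.add_apply, map_add]
    rfl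
  ext i j
  rw [Matrix.map_apply]
  fin_cases i
  · exact pl_map φ _ _ j
  · exact pl_map φ _ _ j
  · exact pl_map φ _ _ j
  · exact (pl_map φ _ _ j).trans (by rw [h]; rfl)
  · exact (pl_map φ _ _ j).trans (by rw [h]; rfl)
  · exact (pl_map φ _ _ j).trans (by rw [h]; rfl)

lemma MM_mulVec {R : Type*} [CommRing R] (A B C : Fin 3 → Fin 4 → R) (T : Fin 6 → R) :
    MM A B C *ᵥ T = 0 ↔ (∀ k, pr T (A k) (B k) = 0) ∧ ∀ k, pr T (A k + B k) (C k) = 0 := by
  constructor
  · intro h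
    have e : ∀ i, (MM A B C *ᵥ T) i = 0 := fun i => congrFun h i
    constructor
    · intro k
      rw [← pl_pr]
      fin_cases k
      · exact e 0
      · exact e 1
      · exact e 2
    · intro k
      rw [← pl_pr]
      fin_cases k
      · exact e 3
      · exact e 4
      · exact e 5
  · rintro ⟨h1, h2⟩
    funext i
    fin_cases i
    · exact (pl_pr T (A 0) (B 0)).trans (h1 0)
    · exact (pl_pr T (A 1) (B 1)).trans (h1 1)
    · exact (pl_pr T (A 2) (B 2)).trans (h1 2)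
    · exact (pl_pr T (A 0 + B 0) (C 0)).trans (h2 0)
    · exact (pl_pr T (A 1 + B 1) (C 1)).trans (h2 1)
    · exact (pl_pr T (A 2 + B 2) (C 2)).trans (h2 2)

/-- explicit points -/
def PA : Fin 3 → Fin 4 → ℚ := ![![1, 0, 0, 0], ![1, 0, 0, 0], ![0, 0, 1, 0]]

def PB : Fin 3 → Fin 4 → ℚ := ![![0, 1, 0, 0], ![0, 0, 0, 1], ![0, 0, 0, 1]]

def PC : Fin 3 → Fin 4 → ℚ := ![![0, 0, 1, 0], ![0, 1, 0, 0], ![1, 0, 0, 0]]

lemma numeric (T : Fin 6 → ℚ) (h : MM PA PB PC *ᵥ T = 0) : T = 0 := by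
  obtain ⟨h1, h2⟩ := (MM_mulVec PA PB PC T).1 h
  have a0 := h1 0
  have a1 := h1 1
  have a2 := h1 2
  have c0 := h2 0
  have c1 := h2 1
  have c2 := h2 2
  simp [pr, PA, PB, PC] at a0 a1 a2 c0 c1 c2
  funext i
  fin_cases i <;> simp <;> linarith

theorem t : S_SIX := by
  intro V _ A Bb Cc hA hB hC hAB hAC hBC T h1 h2
  by_contra hT
  have hdet : (MM (fun k => gx V (A k)) (fun k => gx V (Bb k)) (fun k => gx V (Cc k))).det = 0 :=
    Matrix.exists_mulVec_eq_zero_iff.1 ⟨T, hT, (MM_mulVec _ _ _ T).2 ⟨h1, h2⟩⟩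
  have hmap : MM (fun k => gx V (A k)) (fun k => gx V (Bb k)) (fun k => gx V (Cc k)) =
      (MM (fun k => tx V (A k)) (fun k => tx V (Bb k)) (fun k => tx V (Cc k))).map
        (algebraMap (PR V) (PK V)) := by
    rw [MM_map]
    rfl
  have hdet2 : (MM (fun k => tx V (A k)) (fun k => tx V (Bb k)) (fun k => tx V (Cc k))).det = 0 := by
    have h3 : algebraMap (PR V) (PK V)
        (MM (fun k => tx V (A k)) (fun k => tx V (Bb k)) (fun k => tx V (Cc k))).det = 0 := by
      rw [RingHom.map_det, RingHom.mapMatrix_apply, ← hmap, hdet]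
    exact (map_eq_zero_iff _ (IsFractionRing.injective (PR V) (PK V))).1 h3
  -- the specialisation
  let val : V → Fin 4 → ℚ := Function.extend A PA (Function.extend Bb PB
    (Function.extend Cc PC (fun _ _ => 0)))
  have vA : ∀ k, val (A k) = PA k := fun k => hA.extend_apply _ _ k
  have vB : ∀ k, val (Bb k) = PB k := fun k => by
    show Function.extend A PA _ (Bb k) = PB k
    rw [Function.extend_apply' _ _ _ (by rintro ⟨l, hl⟩; exact hAB l k hl), hB.extend_apply]
  have vC : ∀ k, val (Cc k) = PC k := fun k => by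
    show Function.extend A PA _ (Cc k) = PC k
    rw [Function.extend_apply' _ _ _ (by rintro ⟨l, hl⟩; exact hAC l k hl),
      Function.extend_apply' _ _ _ (by rintro ⟨l, hl⟩; exact hBC l k hl), hC.extend_apply]
  let φ : PR V →+* ℚ := (MvPolynomial.aeval (R := ℚ) fun c : V × Fin 4 => val c.1 c.2 :
    PR V →ₐ[ℚ] ℚ)
  have hφ : ∀ v i, φ (tx V v i) = val v i := by
    intro v i
    exact MvPolynomial.aeval_X _ _
  have hdet3 : (MM PA PB PC).det = 0 := by
    have h3 := congrArg φ hdet2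
    rw [map_zero, RingHom.map_det, RingHom.mapMatrix_apply, MM_map] at h3
    simp only [hφ, vA, vB, vC] at h3
    exact h3
  obtain ⟨v, hv, hv2⟩ := Matrix.exists_mulVec_eq_zero_iff.2 hdet3
  exact hv (numeric v hv2)

end Pool.Agent.Y287.TB.Six
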